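import Mathlib

set_option autoImplicit false

/-! A well ordered unbounded chain of continuous monotone functions, all of whose initial
segments are smaller than the chain itself. -/

namespace Pool.Agent.Lib.MP_034e58_gt

open Filter Set Cardinal

/-- `g` is eventually far below `h`. -/
def Below (g h : ℝ → ℝ) : Prop := Tendsto (fun x => h x - g x) atTop atTop

theorem Below.trans {f g h : ℝ → ℝ} (h1 : Below f g) (h2 : Below g h) : Below f h := by
  have := Tendsto.atTop_add_atTop h2 h1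
  unfold Below
  refine this.congr (fun x => by ring)

theorem not_below_self (g : ℝ → ℝ) : ¬ Below g g := by
  intro h
  unfold Below at h
  have := (h.eventually (eventually_gt_atTop (0 : ℝ))).exists
  obtain ⟨x, hx⟩ := this
  simp at hx

theorem exists_dominating (φ : ℕ → ℝ) :
    ∃ h : ℝ → ℝ, Continuous h ∧ Monotone h ∧ ∀ (n : ℕ) (x : ℝ), (n : ℝ) ≤ x → φ n ≤ h x := by
  let f : ℕ → ℝ → ℝ := fun n x => |φ n| * max 0 (x - n + 1)
  have hsupp : ∀ (n : ℕ) (x : ℝ), f n x ≠ 0 → (n : ℝ) < x + 1 := by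
    intro n x hx
    by_contra hc
    push Not at hc
    apply hx
    have : max 0 (x - n + 1) = 0 := max_eq_left (by linarith)
    simp only [f, this, mul_zero]
  have hfin : ∀ x : ℝ, Function.HasFiniteSupport (fun n => f n x) := by
    intro x
    refine (Set.finite_lt_nat ⌈x + 1⌉₊).subset ?_
    intro n hn
    exact Nat.lt_ceil.2 (hsupp n x hn)
  have hnn : ∀ n x, 0 ≤ f n x := fun n x => mul_nonneg (abs_nonneg _) (le_max_left _ _)
  refine ⟨fun x => ∑ᶠ n, f n x, ?_, ?_, ?_⟩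
  · refine continuous_finsum (fun n => by simp only [f]; fun_prop) ?_
    intro x
    refine ⟨Iio (x + 1), Iio_mem_nhds (by linarith), ?_⟩
    refine (Set.finite_lt_nat ⌈x + 2⌉₊).subset ?_
    rintro n ⟨y, hy, hy2⟩
    have := hsupp n y hy
    have hy3 : y < x + 1 := hy2
    exact Nat.lt_ceil.2 (by linarith)
  · intro x y hxy
    refine finsum_le_finsum' (hfin x) (hfin y) ?_
    intro n
    exact mul_le_mul_of_nonneg_left (max_le_max le_rfl (by linarith)) (abs_nonneg _)
  · intro n x hx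
    refine le_trans ?_ (single_le_finsum n (hfin x) (fun j => hnn j x))
    have h1 : (1 : ℝ) ≤ max 0 (x - n + 1) := le_max_of_le_right (by linarith)
    calc φ n ≤ |φ n| * 1 := by simpa using le_abs_self _
      _ ≤ _ := mul_le_mul_of_nonneg_left h1 (abs_nonneg _)

/-- The set of functions `C` is unbounded along every sequence tending to infinity. -/
def Unb (C : Set (ℝ → ℝ)) : Prop :=
  ∀ x y : ℕ → ℝ, Tendsto x atTop atTop → ∃ g ∈ C, ∃ᶠ j in atTop, y j < g (x j)

theorem exists_bound (C : Set (ℝ → ℝ)) (hC : ∀ g ∈ C, Monotone g) (hU : ¬ Unb C) :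
    ∃ h : ℝ → ℝ, Continuous h ∧ Monotone h ∧ ∀ g ∈ C, Below g h := by
  unfold Unb at hU
  push Not at hU
  obtain ⟨x, y, hx, hxy⟩ := hU
  have hj : ∀ n : ℕ, ∃ j : ℕ, n ≤ j ∧ (n : ℝ) + 1 ≤ x j := by
    intro n
    exact ((eventually_ge_atTop n).and (hx.eventually (eventually_ge_atTop ((n : ℝ) + 1)))).exists
  choose J hJ1 hJ2 using hj
  obtain ⟨h, hc, hm, hd⟩ := exists_dominating (fun n => y (J n) + n)
  refine ⟨h, hc, hm, fun g hg => ?_⟩
  obtain ⟨N, hN⟩ := eventually_atTop.1 (hxy g hg)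
  unfold Below
  refine tendsto_atTop_mono' atTop (f₁ := fun t : ℝ => t - 1) ?_ (tendsto_atTop_add_const_right _ (-1) tendsto_id)
  filter_upwards [eventually_ge_atTop (N : ℝ)] with t ht
  have ht0 : 0 ≤ t := le_trans (Nat.cast_nonneg N) ht
  have h1 : ((⌊t⌋₊ : ℕ) : ℝ) ≤ t := Nat.floor_le ht0
  have h2 : t < (⌊t⌋₊ : ℝ) + 1 := Nat.lt_floor_add_one t
  have h3 : N ≤ ⌊t⌋₊ := Nat.le_floor ht
  have h4 := hd ⌊t⌋₊ t h1
  have h5 := hN (J ⌊t⌋₊) (h3.trans (hJ1 _))
  have h6 : g t ≤ g (x (J ⌊t⌋₊)) := hC g hg (by linarith [hJ2 ⌊t⌋₊])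
  linarith

/-- Good families: unbounded chains of continuous monotone functions. -/
def Good (C : Set (ℝ → ℝ)) : Prop :=
  (∀ g ∈ C, Continuous g ∧ Monotone g) ∧ IsChain Below C ∧ Unb C

theorem exists_good : ∃ C, Good C := by
  let F := {g : ℝ → ℝ // Continuous g ∧ Monotone g}
  let r : F → F → Prop := fun a b => Below a.1 b.1
  have hmax := maxChain_spec (r := r)
  refine ⟨Subtype.val '' maxChain r, ?_, ?_, ?_⟩
  · rintro g ⟨a, -, rfl⟩
    exact a.2
  · rintro g ⟨a, ha, rfl⟩ h ⟨b, hb, rfl⟩ hne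
    exact hmax.1 ha hb (fun h => hne (by rw [h]))
  · by_contra hU
    obtain ⟨h, hc, hm, hb⟩ := exists_bound _ (by rintro g ⟨a, -, rfl⟩; exact a.2.2) hU
    have hch : IsChain r (insert ⟨h, hc, hm⟩ (maxChain r)) :=
      hmax.1.insert (fun b hb' _ => Or.inr (hb b.1 ⟨b, hb', rfl⟩))
    have heq := hmax.2 hch (subset_insert _ _)
    have hmem : (⟨h, hc, hm⟩ : F) ∈ maxChain r := by rw [heq]; exact mem_insert _ _
    exact not_below_self h (hb h ⟨_, hmem, rfl⟩)

theorem Unb.uncountable {C : Set (ℝ → ℝ)} (hU : Unb C) : ℵ₀ < #C := by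
  by_contra hc
  push Not at hc
  have hcount : C.Countable := le_aleph0_iff_set_countable.1 hc
  rcases C.eq_empty_or_nonempty with rfl | hne
  · obtain ⟨g, hg, -⟩ := hU (fun n => n) (fun n => n) tendsto_natCast_atTop_atTop
    exact hg
  obtain ⟨e, rfl⟩ := hcount.exists_eq_range hne
  obtain ⟨g, ⟨k, rfl⟩, hk⟩ := hU (fun n => n) (fun n => ∑ i ∈ Finset.range (n + 1), |e i n|)
    tendsto_natCast_atTop_atTop
  obtain ⟨n, hn1, hn2⟩ := (hk.and_eventually (eventually_ge_atTop k)).exists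
  have : |e k n| ≤ ∑ i ∈ Finset.range (n + 1), |e i n| :=
    Finset.single_le_sum (f := fun i => |e i n|) (fun i _ => abs_nonneg _)
      (Finset.mem_range.2 (by omega))
  linarith [le_abs_self (e k n)]

theorem exists_scale : ∃ S : Set (ℝ → ℝ), Good S ∧ ∀ a : S, #{b : S | ¬ Below a.1 b.1} < #S := by
  classical
  obtain ⟨C, hC, hmin⟩ := (InvImage.wf (fun C : Set (ℝ → ℝ) => #C) Cardinal.lt_wf).has_min
    {C | Good C} exists_good
  have hmin' : ∀ D, Good D → #C ≤ #D := fun D hD => not_lt.1 (hmin D hD)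
  obtain ⟨r, hr, hord⟩ := Cardinal.exists_ord_eq C
  have hC' : Good C := hC
  let S0 : Set C := {a | ∀ b, r b a → Below b.1 a.1}
  have hcof : ∀ c : C, ∃ a ∈ S0, c = a ∨ Below c.1 a.1 := by
    intro c
    obtain ⟨a, ha, hamin⟩ := hr.wf.has_min {a : C | c = a ∨ Below c.1 a.1} ⟨c, Or.inl rfl⟩
    refine ⟨a, fun b hb => ?_, ha⟩
    have hb' : ¬ (c = b ∨ Below c.1 b.1) := fun h => hamin b h hb
    push Not at hb'
    have hbc : Below b.1 c.1 := by
      rcases hC'.2.1 b.2 c.2 (fun h => hb'.1 (Subtype.ext h.symm)) with h | h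
      · exact h
      · exact absurd h hb'.2
    rcases ha with rfl | ha
    · exact hbc
    · exact hbc.trans ha
  have hsub : Subtype.val '' S0 ⊆ C := by
    rintro g ⟨a, -, rfl⟩
    exact a.2
  have hgood : Good (Subtype.val '' S0) := by
    refine ⟨fun g hg => hC'.1 g (hsub hg), hC'.2.1.mono hsub, ?_⟩
    intro x y hx
    obtain ⟨g, hg, hfr⟩ := hC'.2.2 x y hx
    obtain ⟨a, ha, hga⟩ := hcof ⟨g, hg⟩
    refine ⟨a.1, ⟨a, ha, rfl⟩, ?_⟩
    rcases hga with rfl | hga
    · exact hfr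
    · have := (hx.eventually (hga.eventually (eventually_gt_atTop (0 : ℝ))))
      refine (hfr.and_eventually this).mono ?_
      rintro j ⟨h1, h2⟩
      simp only at h2
      linarith
  refine ⟨Subtype.val '' S0, hgood, ?_⟩
  rintro ⟨_, a, ha, rfl⟩
  refine lt_of_lt_of_le ?_ (hmin' _ hgood)
  have hlt : #{y // r y a} < #C := by
    have := Cardinal.card_typein_lt a hord
    rwa [Ordinal.card_typein] at this
  have hinf : ℵ₀ ≤ #C := hC'.2.2.uncountable.le
  have hlt2 : #(insert a {y | r y a} : Set C) < #C := by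
    refine lt_of_le_of_lt Cardinal.mk_insert_le ?_
    exact Cardinal.add_lt_of_lt hinf hlt (lt_of_lt_of_le Cardinal.one_lt_aleph0 hinf)
  refine lt_of_le_of_lt ?_ hlt2
  let F : {b : ↥(Subtype.val '' S0) | ¬ Below a.1 b.1} → (insert a {y | r y a} : Set C) :=
    fun b => ⟨⟨b.1.1, hsub b.1.2⟩, by
      obtain ⟨⟨_, c, hc, rfl⟩, hb⟩ := b
      rcases trichotomous_of r c a with h | h | h
      · exact Or.inr h
      · exact Or.inl h
      · exact absurd (hc a h) hb⟩
  refine Cardinal.mk_le_of_injective (f := F) ?_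
  intro b c h
  have : b.1.1 = c.1.1 := congrArg (fun z => z.1.1) h
  exact Subtype.ext (Subtype.ext this)

end Pool.Agent.Lib.MP_034e58_gt
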