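import Mathlib
import Pool.Agent.Lib.MP_034e58_gt.Chain

set_option autoImplicit false

/-! The surface: planes glued along the complement of a line by shears, plus infinitely many
boxes. -/

namespace Pool.Agent.Lib.MP_034e58_gt

open Filter Set Topology

/-- The planar part of the surface. -/
def InP (p : ℝ × ℝ) : Prop := p.1 ≠ 0 ∧ (0 < p.2 ∨ ∃ j : ℕ, (j : ℝ) < p.1⁻¹ ∧ p.1⁻¹ < j + 1)

/-- The planar part as a type. -/
abbrev P : Type := {p : ℝ × ℝ // InP p}

theorem isOpen_ne0 : IsOpen {q : ℝ × ℝ | q.1 ≠ 0} := isOpen_ne_fun continuous_fst continuous_const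

theorem contOn_inv : ContinuousOn (fun q : ℝ × ℝ => q.1⁻¹) {q : ℝ × ℝ | q.1 ≠ 0} :=
  continuousOn_fst.inv₀ (fun _ hq => hq)

theorem isOpen_InP : IsOpen {p : ℝ × ℝ | InP p} := by
  have : {p : ℝ × ℝ | InP p} = ({q : ℝ × ℝ | q.1 ≠ 0} ∩ {q | 0 < q.2}) ∪
      ⋃ j : ℕ, ({q : ℝ × ℝ | q.1 ≠ 0} ∩ (fun q : ℝ × ℝ => q.1⁻¹) ⁻¹' Ioo (j : ℝ) (j + 1)) := by
    ext p
    simp only [InP, mem_ofPred_eq, mem_union, mem_inter_iff, mem_iUnion, mem_preimage, mem_Ioo]
    constructor
    · rintro ⟨h, h2 | ⟨j, hj⟩⟩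
      · exact Or.inl ⟨h, h2⟩
      · exact Or.inr ⟨j, h, hj⟩
    · rintro (⟨h, h2⟩ | ⟨j, h, hj⟩)
      · exact ⟨h, Or.inl h2⟩
      · exact ⟨h, Or.inr ⟨j, hj⟩⟩
  rw [this]
  refine IsOpen.union (isOpen_ne0.inter (isOpen_lt continuous_const continuous_snd)) ?_
  exact isOpen_iUnion (fun j => contOn_inv.isOpen_inter_preimage isOpen_ne0 isOpen_Ioo)

/-- The shear attached to a function. -/
noncomputable def gam (g : ℝ → ℝ) (u : ℝ) : ℝ := g |u|⁻¹

theorem contOn_gam {g : ℝ → ℝ} (hg : Continuous g) :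
    ContinuousOn (fun q : ℝ × ℝ => gam g q.1) {q : ℝ × ℝ | q.1 ≠ 0} := by
  unfold gam
  refine hg.comp_continuousOn ?_
  exact (continuous_abs.comp continuous_fst).continuousOn.inv₀ (fun q hq => abs_ne_zero.2 hq)

theorem tendsto_abs_inv : Tendsto (fun u : ℝ => |u|⁻¹) (𝓝[≠] 0) atTop := by
  have h : Tendsto (fun u : ℝ => |u|) (𝓝[≠] 0) (𝓝[>] 0) := by
    refine tendsto_nhdsWithin_iff.2 ⟨?_, ?_⟩
    · have : Tendsto (fun u : ℝ => |u|) (𝓝 0) (𝓝 |0|) := continuous_abs.tendsto 0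
      simpa using this.mono_left nhdsWithin_le_nhds
    · filter_upwards [self_mem_nhdsWithin] with u hu
      exact abs_pos.2 hu
  exact tendsto_inv_nhdsGT_zero.comp h

theorem Below.gam_gap {g h : ℝ → ℝ} (hb : Below g h) (R : ℝ) :
    ∃ δ > 0, ∀ u : ℝ, u ≠ 0 → |u| < δ → R < gam h u - gam g u := by
  have := (hb.comp tendsto_abs_inv).eventually (eventually_gt_atTop R)
  rw [eventually_nhdsWithin_iff, Metric.eventually_nhds_iff] at this
  obtain ⟨δ, hδ, h⟩ := this
  refine ⟨δ, hδ, fun u hu hd => ?_⟩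
  exact h (by simpa [Real.dist_eq] using hd) hu

/-- The underlying type of the surface. -/
def M (S : Set (ℝ → ℝ)) : Type := P ⊕ (S × ℝ)

variable {S : Set (ℝ → ℝ)}

/-- Inclusion of the planar part. -/
def iot (p : P) : M S := Sum.inl p

/-- The points at infinity. -/
def lim (a : S) (t : ℝ) : M S := Sum.inr (a, t)

theorem iot_inj : Function.Injective (iot : P → M S) := fun _ _ h => Sum.inl_injective h

theorem lim_inj {a b : S} {s t : ℝ} (h : lim a s = lim b t) : a = b ∧ s = t := by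
  have := Sum.inr_injective h
  simpa using this

theorem iot_ne_lim (p : P) (a : S) (t : ℝ) : iot p ≠ lim a t := Sum.inl_ne_inr

theorem M_cases (x : M S) : (∃ p, x = iot p) ∨ ∃ a t, x = lim a t := by
  rcases x with p | ⟨a, t⟩
  · exact Or.inl ⟨p, rfl⟩
  · exact Or.inr ⟨a, t, rfl⟩

/-- The point of the planar part with given chart coordinates. -/
noncomputable def pt (g : ℝ → ℝ) (q : ℝ × ℝ) (h : q.1 ≠ 0) : P :=
  ⟨(q.1, Real.exp (-(gam g q.1 + q.2))), h, Or.inl (Real.exp_pos _)⟩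

open Classical in
/-- The chart attached to `a`. -/
noncomputable def phi (a : S) (q : ℝ × ℝ) : M S :=
  if h : q.1 = 0 then lim a q.2 else iot (pt a.1 q h)

theorem phi_zero (a : S) (t : ℝ) : phi a (0, t) = lim a t := by simp [phi]

theorem phi_zero' (a : S) {q : ℝ × ℝ} (h : q.1 = 0) : phi a q = lim a q.2 := by simp [phi, h]

theorem phi_ne (a : S) {q : ℝ × ℝ} (h : q.1 ≠ 0) : phi a q = iot (pt a.1 q h) := by simp [phi, h]

theorem phi_eq_iot {a : S} {q : ℝ × ℝ} {p : P} :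
    phi a q = iot p ↔ 0 < p.1.2 ∧ q = (p.1.1, -Real.log p.1.2 - gam a.1 p.1.1) := by
  constructor
  · intro h
    by_cases hq : q.1 = 0
    · rw [phi_zero' a hq] at h
      exact absurd h.symm (iot_ne_lim _ _ _)
    · rw [phi_ne a hq] at h
      have := iot_inj h
      subst this
      refine ⟨Real.exp_pos _, ?_⟩
      ext
      · rfl
      · simp [pt]
  · rintro ⟨h, rfl⟩
    rw [phi_ne a (q := (p.1.1, -Real.log p.1.2 - gam a.1 p.1.1)) p.2.1]
    congr 1
    apply Subtype.ext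
    ext
    · rfl
    · simp [pt, Real.exp_log h]

theorem phi_eq_lim {a b : S} {q : ℝ × ℝ} {t : ℝ} : phi a q = lim b t ↔ a = b ∧ q = (0, t) := by
  constructor
  · intro h
    by_cases hq : q.1 = 0
    · rw [phi_zero' a hq] at h
      obtain ⟨h1, h2⟩ := lim_inj h
      exact ⟨h1, Prod.ext hq h2⟩
    · rw [phi_ne a hq] at h
      exact absurd h (iot_ne_lim _ _ _)
  · rintro ⟨rfl, rfl⟩
    exact phi_zero _ _

theorem phi_eq_phi {a b : S} {q r : ℝ × ℝ} (hq : q.1 ≠ 0) :
    phi b r = phi a q ↔ r = (q.1, q.2 + gam a.1 q.1 - gam b.1 q.1) := by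
  rw [phi_ne a hq, phi_eq_iot]
  constructor
  · rintro ⟨-, h⟩
    rw [h]
    ext
    · rfl
    · simp [pt]; ring
  · rintro rfl
    refine ⟨Real.exp_pos _, ?_⟩
    ext
    · rfl
    · simp [pt]; ring

theorem phi_inj (a : S) : Function.Injective (phi a) := by
  intro q r h
  by_cases hr : r.1 = 0
  · rw [phi_zero' a hr, phi_eq_lim] at h
    rw [h.2]
    exact Prod.ext hr.symm rfl
  · rw [phi_eq_phi hr] at h
    rw [h]
    ext
    · rfl
    · simp

instance : TopologicalSpace (M S) where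
  IsOpen O := IsOpen (iot ⁻¹' O) ∧ ∀ a : S, IsOpen (phi a ⁻¹' O)
  isOpen_univ := ⟨by simp, fun a => by simp⟩
  isOpen_inter s t hs ht := ⟨hs.1.inter ht.1, fun a => (hs.2 a).inter (ht.2 a)⟩
  isOpen_sUnion s hs := by
    refine ⟨?_, fun a => ?_⟩
    · rw [preimage_sUnion]
      exact isOpen_biUnion (fun t ht => (hs t ht).1)
    · rw [preimage_sUnion]
      exact isOpen_biUnion (fun t ht => (hs t ht).2 a)

theorem isOpen_M {O : Set (M S)} :
    IsOpen O ↔ IsOpen (iot ⁻¹' O) ∧ ∀ a : S, IsOpen (phi a ⁻¹' O) := Iff.rfl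

theorem continuous_iot : Continuous (iot : P → M S) :=
  ⟨fun _ h => (isOpen_M.1 h).1⟩

theorem continuous_phi (a : S) : Continuous (phi a) :=
  ⟨fun _ h => (isOpen_M.1 h).2 a⟩

theorem continuous_from_M {Y : Type} [TopologicalSpace Y] {f : M S → Y}
    (h1 : Continuous (f ∘ iot)) (h2 : ∀ a, Continuous (f ∘ phi a)) : Continuous f :=
  ⟨fun _ hO => isOpen_M.2 ⟨h1.isOpen_preimage _ hO, fun a => (h2 a).isOpen_preimage _ hO⟩⟩

theorem isOpenEmbedding_iot (hS : ∀ g ∈ S, Continuous g) : IsOpenEmbedding (iot : P → M S) := by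
  refine IsOpenEmbedding.of_continuous_injective_isOpenMap continuous_iot iot_inj ?_
  intro A hA
  refine isOpen_M.2 ⟨by rwa [preimage_image_eq _ iot_inj], fun a => ?_⟩
  have hA' : IsOpen (Subtype.val '' A) := isOpen_InP.isOpenMap_subtype_val A hA
  have : phi a ⁻¹' (iot '' A) = {q : ℝ × ℝ | q.1 ≠ 0} ∩
      (fun q : ℝ × ℝ => (q.1, Real.exp (-(gam a.1 q.1 + q.2)))) ⁻¹' (Subtype.val '' A) := by
    ext q
    simp only [mem_preimage, mem_image, mem_inter_iff, mem_ofPred_eq]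
    constructor
    · rintro ⟨p, hp, h⟩
      by_cases hq : q.1 = 0
      · rw [phi_zero' a hq] at h
        exact absurd h (iot_ne_lim _ _ _)
      · rw [phi_ne a hq] at h
        have := iot_inj h
        subst this
        exact ⟨hq, _, hp, rfl⟩
    · rintro ⟨hq, p, hp, h⟩
      refine ⟨p, hp, ?_⟩
      rw [phi_ne a hq]
      congr 1
      exact Subtype.ext h
  rw [this]
  refine ContinuousOn.isOpen_inter_preimage ?_ isOpen_ne0 hA'
  refine continuousOn_fst.prodMk ?_
  exact Real.continuous_exp.comp_continuousOn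
    (((contOn_gam (hS a.1 a.2)).add continuousOn_snd).neg)

theorem isOpenEmbedding_phi (hS : ∀ g ∈ S, Continuous g) (a : S) : IsOpenEmbedding (phi a) := by
  refine IsOpenEmbedding.of_continuous_injective_isOpenMap (continuous_phi a) (phi_inj a) ?_
  intro A hA
  refine isOpen_M.2 ⟨?_, fun b => ?_⟩
  · have : iot ⁻¹' (phi a '' A) = Subtype.val ⁻¹' (({q : ℝ × ℝ | q.1 ≠ 0} ∩ {q | 0 < q.2}) ∩
        (fun q : ℝ × ℝ => (q.1, -Real.log q.2 - gam a.1 q.1)) ⁻¹' A) := by
      ext p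
      simp only [mem_preimage, mem_image, mem_inter_iff, mem_ofPred_eq]
      constructor
      · rintro ⟨q, hq, h⟩
        rw [phi_eq_iot] at h
        exact ⟨⟨p.2.1, h.1⟩, h.2 ▸ hq⟩
      · rintro ⟨⟨-, h1⟩, h2⟩
        exact ⟨_, h2, phi_eq_iot.2 ⟨h1, rfl⟩⟩
    rw [this]
    refine IsOpen.preimage continuous_subtype_val ?_
    refine ContinuousOn.isOpen_inter_preimage ?_
      (isOpen_ne0.inter (isOpen_lt continuous_const continuous_snd)) hA
    refine continuousOn_fst.prodMk ?_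
    refine ContinuousOn.sub ?_ ((contOn_gam (hS a.1 a.2)).mono inter_subset_left)
    exact (continuousOn_snd.log (fun q hq => ne_of_gt hq.2)).neg
  · by_cases hab : b = a
    · subst hab
      rwa [preimage_image_eq _ (phi_inj b)]
    · have : phi b ⁻¹' (phi a '' A) = {q : ℝ × ℝ | q.1 ≠ 0} ∩
          (fun q : ℝ × ℝ => (q.1, q.2 + gam b.1 q.1 - gam a.1 q.1)) ⁻¹' A := by
        ext q
        simp only [mem_preimage, mem_image, mem_inter_iff, mem_ofPred_eq]
        constructor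
        · rintro ⟨r, hr, h⟩
          by_cases hq : q.1 = 0
          · rw [phi_zero' b hq, phi_eq_lim] at h
            exact absurd h.1.symm hab
          · rw [phi_eq_phi hq] at h
            exact ⟨hq, h ▸ hr⟩
        · rintro ⟨hq, h⟩
          exact ⟨_, h, (phi_eq_phi hq).2 rfl⟩
      rw [this]
      refine ContinuousOn.isOpen_inter_preimage ?_ isOpen_ne0 hA
      refine continuousOn_fst.prodMk ?_
      exact (continuousOn_snd.add (contOn_gam (hS b.1 b.2))).sub (contOn_gam (hS a.1 a.2))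

/-- The first coordinate. -/
def uc : M S → ℝ := Sum.elim (fun p => p.1.1) (fun _ => 0)

theorem uc_iot (p : P) : uc (iot p : M S) = p.1.1 := rfl

theorem uc_lim (a : S) (t : ℝ) : uc (lim a t) = 0 := rfl

theorem uc_phi (a : S) (q : ℝ × ℝ) : uc (phi a q) = q.1 := by
  by_cases hq : q.1 = 0
  · rw [phi_zero' a hq, uc_lim, hq]
  · rw [phi_ne a hq, uc_iot]; rfl

theorem continuous_uc : Continuous (uc : M S → ℝ) := by
  refine continuous_from_M ?_ (fun a => ?_)
  · exact continuous_fst.comp continuous_subtype_val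
  · have : uc ∘ phi a = Prod.fst := funext (uc_phi a)
    rw [this]
    exact continuous_fst

theorem sep_lim (hS : ∀ g ∈ S, Continuous g) {a b : S} (hab : Below a.1 b.1) (s t : ℝ) :
    ∃ u v : Set (M S), IsOpen u ∧ IsOpen v ∧ lim a s ∈ u ∧ lim b t ∈ v ∧ Disjoint u v := by
  obtain ⟨δ, hδ, h⟩ := hab.gam_gap (s - t + 2)
  have hne : a ≠ b := by
    rintro rfl
    exact not_below_self _ hab
  refine ⟨phi a '' (Ioo (-δ) δ ×ˢ Iio (s + 1)), phi b '' (Ioo (-δ) δ ×ˢ Ioi (t - 1)),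
    (isOpenEmbedding_phi hS a).isOpenMap _ (isOpen_Ioo.prod isOpen_Iio),
    (isOpenEmbedding_phi hS b).isOpenMap _ (isOpen_Ioo.prod isOpen_Ioi),
    ⟨(0, s), ⟨⟨by linarith, hδ⟩, by simp⟩, phi_zero _ _⟩,
    ⟨(0, t), ⟨⟨by linarith, hδ⟩, by simp⟩, phi_zero _ _⟩, ?_⟩
  rw [Set.disjoint_left]
  rintro _ ⟨q, hq, rfl⟩ ⟨r, hr, hqr⟩
  by_cases hq0 : q.1 = 0
  · rw [phi_zero' a hq0, phi_eq_lim] at hqr
    exact hne hqr.1.symm
  · rw [phi_eq_phi hq0] at hqr
    subst hqr
    have h1 := h q.1 hq0 (abs_lt.2 hq.1)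
    have h2 : q.2 < s + 1 := hq.2
    have h3 : t - 1 < q.2 + gam a.1 q.1 - gam b.1 q.1 := hr.2
    linarith

theorem t2_M (hS : ∀ g ∈ S, Continuous g) (hc : IsChain Below S) : T2Space (M S) := by
  refine ⟨fun x y hxy => ?_⟩
  rcases M_cases x with ⟨p, rfl⟩ | ⟨a, s, rfl⟩ <;> rcases M_cases y with ⟨q, rfl⟩ | ⟨b, t, rfl⟩
  · exact separated_by_isOpenEmbedding (isOpenEmbedding_iot hS) (fun h => hxy (by rw [h]))
  · exact separated_by_continuous continuous_uc p.2.1
  · exact separated_by_continuous continuous_uc (Ne.symm q.2.1)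
  · by_cases hab : a = b
    · subst hab
      rw [← phi_zero, ← phi_zero]
      refine separated_by_isOpenEmbedding (isOpenEmbedding_phi hS a) ?_
      intro h
      have : s = t := congrArg Prod.snd h
      exact hxy (by rw [this])
    · rcases hc a.2 b.2 (fun h => hab (Subtype.ext h)) with h | h
      · exact sep_lim hS h s t
      · obtain ⟨u, v, hu, hv, h1, h2, h3⟩ := sep_lim hS h t s
        exact ⟨v, u, hv, hu, h2, h1, h3.symm⟩

theorem dense_iot : DenseRange (iot : P → M S) := by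
  intro x
  rcases M_cases x with ⟨p, rfl⟩ | ⟨a, s, rfl⟩
  · exact subset_closure ⟨p, rfl⟩
  · have h1 : Tendsto (fun u : ℝ => phi a (u, s)) (𝓝[≠] 0) (𝓝 (lim a s)) := by
      rw [← phi_zero]
      have : Continuous (fun u : ℝ => phi a (u, s)) :=
        (continuous_phi a).comp (continuous_id.prodMk continuous_const)
      exact (this.tendsto 0).mono_left nhdsWithin_le_nhds
    refine mem_closure_of_tendsto h1 ?_
    filter_upwards [self_mem_nhdsWithin] with u hu
    exact ⟨_, (phi_ne a (q := (u, s)) hu).symm⟩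

theorem separable_M : TopologicalSpace.SeparableSpace (M S) :=
  dense_iot.separableSpace continuous_iot

/-- The open set which has no dense copy. -/
def UU (S : Set (ℝ → ℝ)) : Set (M S) := ⋃ a : S, range (phi a)

theorem isOpen_UU (hS : ∀ g ∈ S, Continuous g) : IsOpen (UU S) :=
  isOpen_iUnion (fun a => (isOpenEmbedding_phi hS a).isOpen_range)

theorem phi_mem_UU (a : S) (q : ℝ × ℝ) : phi a q ∈ UU S := mem_iUnion.2 ⟨a, q, rfl⟩

theorem lim_mem_UU (a : S) (t : ℝ) : lim a t ∈ UU S := phi_zero a t ▸ phi_mem_UU a _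

theorem iot_mem_range_phi (a : S) {p : P} (h : 0 < p.1.2) : iot p ∈ range (phi a) :=
  ⟨_, phi_eq_iot.2 ⟨h, rfl⟩⟩

theorem pos_of_iot_mem_UU {p : P} (h : iot p ∈ UU S) : 0 < p.1.2 := by
  obtain ⟨a, q, hq⟩ := mem_iUnion.1 h
  exact (phi_eq_iot.1 hq).1

theorem connected_M (hne : S.Nonempty) : ConnectedSpace (M S) := by
  obtain ⟨g, hg⟩ := hne
  let a0 : S := ⟨g, hg⟩
  let p0 : P := ⟨(1, 1), one_ne_zero, Or.inl one_pos⟩
  have hU : IsPreconnected (UU S) := by
    refine isPreconnected_iUnion ⟨iot p0, mem_iInter.2 (fun a => iot_mem_range_phi a one_pos)⟩ ?_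
    intro a
    exact isPreconnected_range (continuous_phi a)
  have h0 : iot p0 ∈ UU S := mem_iUnion.2 ⟨a0, iot_mem_range_phi a0 one_pos⟩
  have : IsPreconnected (univ : Set (M S)) := by
    refine isPreconnected_of_forall (iot p0) (fun y _ => ?_)
    rcases M_cases y with ⟨p, rfl⟩ | ⟨a, s, rfl⟩
    · rcases p.2.2 with h | h
      · exact ⟨UU S, subset_univ _, h0, mem_iUnion.2 ⟨a0, iot_mem_range_phi a0 h⟩, hU⟩
      · let L : ℝ → M S := fun s => iot ⟨(p.1.1, s), p.2.1, Or.inr h⟩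
        have hL : Continuous L :=
          continuous_iot.comp ((continuous_const.prodMk continuous_id).subtype_mk _)
        refine ⟨UU S ∪ range L, subset_univ _, Or.inl h0, Or.inr ⟨p.1.2, rfl⟩, ?_⟩
        refine IsPreconnected.union (L 1) ?_ ⟨1, rfl⟩ hU (isPreconnected_range hL)
        exact mem_iUnion.2 ⟨a0, iot_mem_range_phi a0 one_pos⟩
    · exact ⟨UU S, subset_univ _, h0, lim_mem_UU a s, hU⟩
  have : PreconnectedSpace (M S) := ⟨this⟩
  exact { toNonempty := ⟨iot p0⟩ }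

theorem exists_chart (hS : ∀ g ∈ S, Continuous g) (x : M S) :
    ∃ e : OpenPartialHomeomorph (M S) (EuclideanSpace ℝ (Fin 2)), x ∈ e.source := by
  let h : (ℝ × ℝ) ≃ₜ EuclideanSpace ℝ (Fin 2) :=
    ((Homeomorph.finTwoArrow (X := ℝ)).symm).trans (EuclideanSpace.equiv (Fin 2) ℝ).toHomeomorph.symm
  rcases M_cases x with ⟨p, rfl⟩ | ⟨a, s, rfl⟩
  · have : Nonempty P := ⟨p⟩
    have hv : IsOpenEmbedding (Subtype.val : P → ℝ × ℝ) := isOpen_InP.isOpenEmbedding_subtypeVal
    refine ⟨(((isOpenEmbedding_iot hS).toOpenPartialHomeomorph iot).symm.trans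
      (hv.toOpenPartialHomeomorph Subtype.val)).trans h.toOpenPartialHomeomorph, ?_⟩
    simp
  · refine ⟨((isOpenEmbedding_phi hS a).toOpenPartialHomeomorph (phi a)).symm.trans
      h.toOpenPartialHomeomorph, ?_⟩
    simp only [OpenPartialHomeomorph.trans_source, OpenPartialHomeomorph.symm_source,
      IsOpenEmbedding.toOpenPartialHomeomorph_target, Homeomorph.toOpenPartialHomeomorph_source,
      preimage_univ, inter_univ]
    exact ⟨(0, s), phi_zero _ _⟩

/-- The atlas of the surface. -/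
@[reducible] noncomputable def chartedM (hS : ∀ g ∈ S, Continuous g) :
    ChartedSpace (EuclideanSpace ℝ (Fin 2)) (M S) where
  atlas := univ
  chartAt x := (exists_chart hS x).choose
  mem_chart_source x := (exists_chart hS x).choose_spec
  chart_mem_atlas _ := mem_univ _

end Pool.Agent.Lib.MP_034e58_gt
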