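import Mathlib
import Pool.Agent.Lib.MP_034e58_gt.Surface

set_option autoImplicit false

/-! The open set `UU S` has no dense open copy in the surface. -/

namespace Pool.Agent.Lib.MP_034e58_gt

open Filter Set Topology Cardinal

variable {S : Set (ℝ → ℝ)}

/-- The lines at infinity met by a set. -/
def TT (A : Set (M S)) : Set S := {b | ∃ t, lim b t ∈ A}

theorem countable_TT (hS : ∀ g ∈ S, Continuous g) {W : Type} [TopologicalSpace W]
    [LindelofSpace W] {g : W → M S} (hg : Continuous g) : (TT (range g)).Countable := by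
  let c : Option S → Set (M S) := fun o => o.elim (range iot) (fun a => range (phi a))
  have hc : ∀ o, IsOpen (g ⁻¹' c o) := by
    rintro (_ | a)
    · exact (isOpenEmbedding_iot hS).isOpen_range.preimage hg
    · exact (isOpenEmbedding_phi hS a).isOpen_range.preimage hg
  have hcov : (univ : Set W) ⊆ ⋃ o, g ⁻¹' c o := by
    intro w _
    rcases M_cases (g w) with ⟨p, hp⟩ | ⟨a, t, h⟩
    · exact mem_iUnion.2 ⟨none, p, hp.symm⟩
    · exact mem_iUnion.2 ⟨some a, (0, t), (phi_zero a t).trans h.symm⟩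
  obtain ⟨r, hr, hsub⟩ := isLindelof_univ.elim_countable_subcover _ hc hcov
  refine (hr.preimage (Option.some_injective S)).mono ?_
  rintro b ⟨t, w, hw⟩
  obtain ⟨o, ho, hwo⟩ := mem_iUnion₂.1 (hsub (mem_univ w))
  rcases o with _ | a
  · obtain ⟨p, hp⟩ := hwo
    exact absurd (hp.trans hw) (iot_ne_lim _ _ _)
  · obtain ⟨q, hq⟩ := hwo
    have := (phi_eq_lim.1 (hq.trans hw)).1
    subst this
    exact ho

theorem small_biUnion {α : Type} (h0 : ℵ₀ < #α) {s : Set α} (hs : #s < #α) (A : α → Set α)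
    (hA : ∀ a, (A a).Countable) : #(⋃ a ∈ s, A a) < #α := by
  refine lt_of_le_of_lt (Cardinal.mk_biUnion_le A s) ?_
  refine Cardinal.mul_lt_of_lt h0.le hs (lt_of_le_of_lt ?_ h0)
  exact ciSup_le' (fun a => le_aleph0_iff_set_countable.2 (hA a.1))

theorem small_union {α : Type} (h0 : ℵ₀ < #α) {s t : Set α} (hs : #s < #α) (ht : #t < #α) :
    #(s ∪ t : Set α) < #α :=
  lt_of_le_of_lt (Cardinal.mk_union_le s t) (Cardinal.add_lt_of_lt h0.le hs ht)

/-- Admissible regions in a chart. -/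
def Adm (A : Set (ℝ × ℝ)) : Prop :=
  IsOpen A ∧ IsPreconnected A ∧ ∃ δ > 0, ∀ q ∈ A, |q.1| < δ → q.1 ≠ 0 ∧ q.2 < 0

theorem K1 (hU : Unb S) (z : ℕ → P) (hz : ∀ j, 0 < (z j).1.2) :
    ∃ (a : S) (A : Set (ℝ × ℝ)), Adm A ∧ ∃ᶠ j in atTop, iot (z j) ∈ phi a '' A := by
  have key : ∀ (a : S) (A : Set (ℝ × ℝ)) (j : ℕ),
      ((z j).1.1, -Real.log (z j).1.2 - gam a.1 (z j).1.1) ∈ A → iot (z j) ∈ phi a '' A :=
    fun a A j h => ⟨_, h, phi_eq_iot.2 ⟨hz j, rfl⟩⟩
  by_cases ht : Tendsto (fun j => |(z j).1.1|⁻¹) atTop atTop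
  · obtain ⟨g, hg, hfr⟩ := hU _ (fun j => -Real.log (z j).1.2) ht
    have h2 : ∃ᶠ j in atTop, (0 < (z j).1.1 ∧ -Real.log (z j).1.2 - gam g (z j).1.1 < 0) ∨
        ((z j).1.1 < 0 ∧ -Real.log (z j).1.2 - gam g (z j).1.1 < 0) := by
      refine hfr.mono (fun j hj => ?_)
      have h3 : -Real.log (z j).1.2 - gam g (z j).1.1 < 0 := by
        unfold gam
        linarith
      rcases lt_or_gt_of_ne (z j).2.1 with h | h
      · exact Or.inr ⟨h, h3⟩
      · exact Or.inl ⟨h, h3⟩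
    rcases frequently_or_distrib.1 h2 with h | h
    · refine ⟨⟨g, hg⟩, Ioi 0 ×ˢ Iio 0, ⟨isOpen_Ioi.prod isOpen_Iio,
        isPreconnected_Ioi.prod isPreconnected_Iio, 1, one_pos, fun q hq _ => ⟨ne_of_gt hq.1, hq.2⟩⟩,
        h.mono (fun j hj => key _ _ j hj)⟩
    · refine ⟨⟨g, hg⟩, Iio 0 ×ˢ Iio 0, ⟨isOpen_Iio.prod isOpen_Iio,
        isPreconnected_Iio.prod isPreconnected_Iio, 1, one_pos, fun q hq _ => ⟨ne_of_lt hq.1, hq.2⟩⟩,
        h.mono (fun j hj => key _ _ j hj)⟩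
  · obtain ⟨g, hg, -⟩ := hU (fun n => n) (fun n => n) tendsto_natCast_atTop_atTop
    rw [tendsto_atTop] at ht
    push Not at ht
    obtain ⟨R, hR⟩ := ht
    have hδ : 0 < (|R| + 1)⁻¹ := by positivity
    have h2 : ∃ᶠ j in atTop, (|R| + 1)⁻¹ < (z j).1.1 ∨ (z j).1.1 < -(|R| + 1)⁻¹ := by
      refine hR.mono (fun j hj => ?_)
      have h3 : 0 < |(z j).1.1| := abs_pos.2 (z j).2.1
      have h4 : (|R| + 1)⁻¹ < |(z j).1.1| := by
        rw [inv_lt_comm₀ (by positivity) h3]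
        linarith [le_abs_self R]
      rcases lt_abs.1 h4 with h | h
      · exact Or.inl h
      · exact Or.inr (by linarith)
    rcases frequently_or_distrib.1 h2 with h | h
    · refine ⟨⟨g, hg⟩, Ioi (|R| + 1)⁻¹ ×ˢ Set.univ, ⟨isOpen_Ioi.prod isOpen_univ,
        isPreconnected_Ioi.prod isPreconnected_univ, _, hδ, fun q hq hq2 => ?_⟩,
        h.mono (fun j hj => key _ _ j ⟨hj, trivial⟩)⟩
      have : (|R| + 1)⁻¹ < q.1 := hq.1
      linarith [le_abs_self q.1]
    · refine ⟨⟨g, hg⟩, Iio (-(|R| + 1)⁻¹) ×ˢ Set.univ, ⟨isOpen_Iio.prod isOpen_univ,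
        isPreconnected_Iio.prod isPreconnected_univ, _, hδ, fun q hq hq2 => ?_⟩,
        h.mono (fun j hj => key _ _ j ⟨hj, trivial⟩)⟩
      have : q.1 < -(|R| + 1)⁻¹ := hq.1
      linarith [neg_abs_le q.1]

theorem K2 (hS : ∀ g ∈ S, Continuous g) {a b : S} (hab : Below a.1 b.1) {A : Set (ℝ × ℝ)}
    (hA : Adm A) (t : ℝ) : lim b t ∉ closure (phi a '' A) := by
  obtain ⟨-, -, δ, hδ, hA⟩ := hA
  obtain ⟨ε, hε, h⟩ := hab.gam_gap (1 - t)
  intro hcl
  have hm : 0 < min δ ε := lt_min hδ hε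
  obtain ⟨_, ⟨r, hr, rfl⟩, ⟨q, hq, hqr⟩⟩ := mem_closure_iff.1 hcl
    (phi b '' (Ioo (-min δ ε) (min δ ε) ×ˢ Ioi (t - 1)))
    ((isOpenEmbedding_phi hS b).isOpenMap _ (isOpen_Ioo.prod isOpen_Ioi))
    ⟨(0, t), ⟨⟨by linarith, hm⟩, by simp⟩, phi_zero _ _⟩
  have h1 : q.1 = r.1 := by rw [← uc_phi a q, hqr, uc_phi]
  have h2 : |q.1| < min δ ε := by rw [h1]; exact abs_lt.2 hr.1
  obtain ⟨h3, h4⟩ := hA q hq (lt_of_lt_of_le h2 (min_le_left _ _))
  have h5 := h q.1 h3 (lt_of_lt_of_le h2 (min_le_right _ _))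
  have h6 := (phi_eq_phi h3).1 hqr.symm
  have h7 : t - 1 < r.2 := hr.2
  rw [h6] at h7
  simp only at h7
  linarith

/-- The open boxes. -/
def box (S : Set (ℝ → ℝ)) (j : ℕ) : Set (M S) :=
  iot '' {p : P | (j : ℝ) < p.1.1⁻¹ ∧ p.1.1⁻¹ < j + 1 ∧ p.1.2 < 0}

theorem continuous_inv_P : Continuous (fun p : P => p.1.1⁻¹) :=
  (continuous_fst.comp continuous_subtype_val).inv₀ (fun p => p.2.1)

theorem continuous_snd_P : Continuous (fun p : P => p.1.2) :=
  continuous_snd.comp continuous_subtype_val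

theorem isOpen_box (hS : ∀ g ∈ S, Continuous g) (j : ℕ) : IsOpen (box S j) := by
  refine (isOpenEmbedding_iot hS).isOpenMap _ ?_
  exact (isOpen_lt continuous_const continuous_inv_P).inter
    ((isOpen_lt continuous_inv_P continuous_const).inter (isOpen_lt continuous_snd_P continuous_const))

theorem box_nonempty (j : ℕ) : (box S j).Nonempty := by
  have h0 : (0 : ℝ) < j + 1 / 2 := by positivity
  refine ⟨_, ⟨((j + 1 / 2 : ℝ)⁻¹, -1), inv_ne_zero h0.ne', Or.inr ⟨j, ?_, ?_⟩⟩, ⟨?_, ?_, ?_⟩, rfl⟩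
  all_goals simp only [inv_inv]
  all_goals linarith

theorem nat_eq_of_between {j k : ℕ} {x : ℝ} (h1 : (j : ℝ) ≤ x) (h2 : x ≤ j + 1) (h3 : (k : ℝ) < x)
    (h4 : x < k + 1) : k = j := by
  have h5 : (k : ℝ) < (j + 1 : ℕ) := by push_cast; linarith
  have h6 : (j : ℝ) < (k + 1 : ℕ) := by push_cast; linarith
  have h7 := Nat.cast_lt.1 h5
  have h8 := Nat.cast_lt.1 h6
  omega

theorem cross (hS : ∀ g ∈ S, Continuous g) {O : Set (M S)} (hO : IsPreconnected O) {j k : ℕ}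
    (hjk : j ≠ k) (hj : (O ∩ box S j).Nonempty) (hk : (O ∩ box S k).Nonempty) :
    ∃ p : P, (j : ℝ) < p.1.1⁻¹ ∧ p.1.1⁻¹ < j + 1 ∧ p.1.2 = 0 ∧ iot p ∈ O := by
  by_contra hc
  push Not at hc
  let C : Set (M S) := iot '' {p : P | (j : ℝ) < p.1.1⁻¹ ∧ p.1.1⁻¹ < j + 1 ∧ p.1.2 ≤ 0}
  have hC : IsOpen Cᶜ := by
    refine isOpen_M.2 ⟨?_, fun a => ?_⟩
    · have : iot ⁻¹' Cᶜ = {p : P | 0 < p.1.2} ∪ ({p : P | p.1.1⁻¹ < j} ∪ {p : P | (j : ℝ) + 1 < p.1.1⁻¹}) := by
        rw [preimage_compl, preimage_image_eq _ iot_inj]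
        ext p
        simp only [mem_compl_iff, mem_ofPred_eq, mem_union]
        constructor
        · intro h
          by_contra h'
          push Not at h'
          obtain ⟨h1, h2, h3⟩ := h'
          rcases p.2.2 with h4 | ⟨k, h4, h5⟩
          · linarith
          · have := nat_eq_of_between h2 h3 h4 h5
            subst this
            exact h ⟨h4, h5, h1⟩
        · rintro (h | h | h) ⟨h1, h2, h3⟩ <;> linarith
      rw [this]
      exact (isOpen_lt continuous_const continuous_snd_P).union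
        ((isOpen_lt continuous_inv_P continuous_const).union
          (isOpen_lt continuous_const continuous_inv_P))
    · have : phi a ⁻¹' Cᶜ = Set.univ := by
        ext q
        simp only [mem_preimage, mem_compl_iff, mem_univ, iff_true]
        rintro ⟨p, hp, h⟩
        have := (phi_eq_iot.1 h.symm).1
        linarith [hp.2.2]
      rw [this]
      exact isOpen_univ
  have hsub : O ⊆ box S j ∪ Cᶜ := by
    intro x hx
    by_cases hxC : x ∈ C
    · obtain ⟨p, hp, rfl⟩ := hxC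
      refine Or.inl ⟨p, ⟨hp.1, hp.2.1, lt_of_le_of_ne hp.2.2 (fun h => hc p hp.1 hp.2.1 h hx)⟩, rfl⟩
    · exact Or.inr hxC
  have hk' : (O ∩ Cᶜ).Nonempty := by
    obtain ⟨_, hx, p, hp, rfl⟩ := hk
    refine ⟨_, hx, ?_⟩
    rintro ⟨p', hp', h⟩
    have := iot_inj h
    subst this
    exact hjk (nat_eq_of_between hp.1.le hp.2.1.le hp'.1 hp'.2.1)
  obtain ⟨_, -, ⟨p, hp, rfl⟩, hx⟩ := hO _ _ (isOpen_box hS j) hC hsub hj hk'
  exact hx ⟨p, ⟨hp.1, hp.2.1, hp.2.2.le⟩, rfl⟩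

theorem K3 (hS : ∀ g ∈ S, Continuous g) (hU : Unb S) {O : Set (M S)} (hO : IsOpen O)
    (hOc : IsPreconnected O) (hfr : ∃ᶠ j in atTop, (O ∩ box S j).Nonempty) :
    ∃ a : S, ∀ b : S, Below a.1 b.1 → ∀ t, lim b t ∈ closure O := by
  obtain ⟨ψ, hψ, hψO⟩ := extraction_of_frequently_atTop hfr
  have h1 : ∀ k : ℕ, ∃ (u : ℝ) (y : ℝ), (k : ℝ) < u⁻¹ ∧
      ∀ (p : P), p.1.1 = u → 0 < p.1.2 → y < -Real.log p.1.2 → iot p ∈ O := by
    intro k
    obtain ⟨p, hp1, hp2, hp3, hp4⟩ := cross hS hOc (hψ.injective.ne (Nat.succ_ne_self k).symm)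
      (hψO k) (hψO (k + 1))
    let L : ℝ → M S := fun s => iot ⟨(p.1.1, s), p.2.1, Or.inr ⟨ψ k, hp1, hp2⟩⟩
    have hL : Continuous L :=
      continuous_iot.comp ((continuous_const.prodMk continuous_id).subtype_mk _)
    have hL0 : L 0 ∈ O := by
      have : L 0 = iot p := by
        simp only [L]
        congr 1
        exact Subtype.ext (Prod.ext rfl hp3.symm)
      rwa [this]
    obtain ⟨δ, hδ, hball⟩ := Metric.isOpen_iff.1 (hO.preimage hL) 0 hL0
    refine ⟨p.1.1, -Real.log δ, lt_of_le_of_lt (Nat.cast_le.2 (hψ.id_le k)) hp1, ?_⟩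
    intro q hq1 hq2 hq3
    have h4 : q.1.2 < δ := (Real.log_lt_log_iff hq2 hδ).1 (by linarith)
    have h5 : L q.1.2 ∈ O := hball (by simpa [Real.dist_eq, abs_of_pos hq2] using h4)
    have : L q.1.2 = iot q := by
      simp only [L]
      congr 1
      exact Subtype.ext (Prod.ext hq1.symm rfl)
    rwa [this] at h5
  choose u y hu hy using h1
  have hpos : ∀ k, 0 < u k := fun k => inv_pos.1 (lt_of_le_of_lt (Nat.cast_nonneg k) (hu k))
  have hx : Tendsto (fun k => (u k)⁻¹) atTop atTop :=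
    tendsto_atTop_mono (fun k => (hu k).le) tendsto_natCast_atTop_atTop
  have hu0 : Tendsto u atTop (𝓝 0) := by
    have := tendsto_inv_atTop_zero.comp hx
    refine this.congr (fun k => by simp)
  obtain ⟨g, hg, hfr2⟩ := hU _ y hx
  refine ⟨⟨g, hg⟩, fun b hb t => ?_⟩
  have h2 : Tendsto (fun k => phi b (u k, t)) atTop (𝓝 (lim b t)) := by
    rw [← phi_zero]
    have : Continuous (fun u : ℝ => phi b (u, t)) :=
      (continuous_phi b).comp (continuous_id.prodMk continuous_const)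
    exact (this.tendsto 0).comp hu0
  refine mem_closure_of_frequently_of_tendsto ?_ h2
  have h3 := hx.eventually (hb.eventually (eventually_gt_atTop (-t)))
  refine (hfr2.and_eventually h3).mono ?_
  rintro k ⟨h4, h5⟩
  rw [phi_ne b (q := (u k, t)) (hpos k).ne']
  refine hy k _ rfl (Real.exp_pos _) ?_
  simp only [pt, Real.log_exp, gam, abs_of_pos (hpos k)]
  simp only at h5
  linarith

theorem no_dense_copy (hG : Good S) (hsm : ∀ a : S, #{b : S | ¬ Below a.1 b.1} < #S)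
    (V : Set (M S)) (hV : IsOpen V) (hVd : Dense V) (f : UU S ≃ₜ V) : False := by
  have hS : ∀ g ∈ S, Continuous g := fun g hg => (hG.1 g hg).1
  have hU : Unb S := hG.2.2
  have h0 : ℵ₀ < #S := hU.uncountable
  let F : UU S → M S := Subtype.val ∘ f
  have hF : IsOpenEmbedding F := hV.isOpenEmbedding_subtypeVal.comp f.isOpenEmbedding
  let H : V → M S := Subtype.val ∘ f.symm
  have hH : IsOpenEmbedding H := (isOpen_UU hS).isOpenEmbedding_subtypeVal.comp f.symm.isOpenEmbedding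
  let phi' : S → ℝ × ℝ → UU S := fun a q => ⟨phi a q, phi_mem_UU a q⟩
  have hphi' : ∀ a, IsOpenEmbedding (phi' a) := fun a =>
    IsOpenEmbedding.of_comp (phi' a) (isOpen_UU hS).isOpenEmbedding_subtypeVal
      (isOpenEmbedding_phi hS a)
  have hz : ∀ j : ℕ, ∃ (p : P) (h : iot p ∈ UU S), F ⟨iot p, h⟩ ∈ box S j := by
    intro j
    have hopen : IsOpen (H '' (Subtype.val ⁻¹' box S j)) :=
      hH.isOpenMap _ ((isOpen_box hS j).preimage continuous_subtype_val)
    obtain ⟨x, hx1, hx2⟩ := hVd.inter_open_nonempty _ (isOpen_box hS j) (box_nonempty j)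
    obtain ⟨p, v, hv, hp⟩ := dense_iot.exists_mem_open hopen ⟨_, ⟨x, hx2⟩, hx1, rfl⟩
    refine ⟨p, hp ▸ (f.symm v).2, ?_⟩
    have : (⟨iot p, hp ▸ (f.symm v).2⟩ : UU S) = f.symm v := Subtype.ext hp.symm
    rw [this]
    simpa [F] using hv
  choose z hzU hzb using hz
  obtain ⟨a, A, hA, hfr⟩ := K1 hU z (fun j => pos_of_iot_mem_UU (hzU j))
  have hFa : IsOpenEmbedding (F ∘ phi' a) := hF.comp (hphi' a)
  obtain ⟨a', ha'⟩ := K3 hS hU (hFa.isOpenMap A hA.1) (hA.2.1.image _ hFa.continuous.continuousOn)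
    (hfr.mono (by
      rintro j ⟨q, hq, h⟩
      refine ⟨_, ⟨q, hq, rfl⟩, ?_⟩
      have : phi' a q = ⟨iot (z j), hzU j⟩ := Subtype.ext h
      simp only [Function.comp, this]
      exact hzb j))
  have hTV : TT V ⊆ {b : S | ¬ Below a'.1 b.1} ∪
      ⋃ c ∈ {c : S | ¬ Below a.1 c.1}, TT (range (F ∘ phi' c)) := by
    rintro b ⟨t, ht⟩
    by_cases hb : Below a'.1 b.1
    · right
      have h1 := ha' b hb t
      let w : UU S := f.symm ⟨lim b t, ht⟩
      have hw : F w = lim b t := by simp [F, w]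
      have h2 : w ∈ closure (phi' a '' A) := by
        rw [hF.isInducing.closure_eq_preimage_closure_image, mem_preimage, hw, ← image_comp]
        exact h1
      have h3 : w.1 ∈ closure (phi a '' A) := by
        have := image_closure_subset_closure_image continuous_subtype_val ⟨w, h2, rfl⟩
        rwa [← image_comp] at this
      have h4 : ∃ c : S, ¬ Below a.1 c.1 ∧ w.1 ∈ range (phi c) := by
        rcases M_cases w.1 with ⟨p, hp⟩ | ⟨c, s, hc⟩
        · refine ⟨a, not_below_self _, ?_⟩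
          rw [hp]
          exact iot_mem_range_phi a (pos_of_iot_mem_UU (hp ▸ w.2))
        · refine ⟨c, fun hac => K2 hS hac hA s (hc ▸ h3), (0, s), ?_⟩
          rw [hc, phi_zero]
      obtain ⟨c, hc, q, hq⟩ := h4
      refine mem_iUnion₂.2 ⟨c, hc, t, q, ?_⟩
      have : phi' c q = w := Subtype.ext hq
      simp only [Function.comp, this, hw]
    · exact Or.inl hb
  have hTVs : #(TT V) < #S := by
    refine lt_of_le_of_lt (Cardinal.mk_le_mk_of_subset hTV) ?_
    exact small_union h0 (hsm a') (small_biUnion h0 (hsm a) _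
      (fun c => countable_TT hS (hF.comp (hphi' c)).continuous))
  let G0 : (iot ⁻¹' V : Set P) → M S := fun p => H ⟨iot p.1, p.2⟩
  have hG0 : Continuous G0 :=
    hH.continuous.comp ((continuous_iot.comp continuous_subtype_val).subtype_mk _)
  let G1 : (b : S) → (phi b ⁻¹' V : Set (ℝ × ℝ)) → M S := fun b p => H ⟨phi b p.1, p.2⟩
  have hG1 : ∀ b, Continuous (G1 b) := fun b =>
    hH.continuous.comp (((continuous_phi b).comp continuous_subtype_val).subtype_mk _)
  have hall : (univ : Set S) ⊆ TT (range G0) ∪ ⋃ b ∈ TT V, TT (range (G1 b)) := by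
    intro c _
    let v : V := f ⟨lim c 0, lim_mem_UU c 0⟩
    have hv : H v = lim c 0 := by simp [H, v]
    rcases M_cases v.1 with ⟨p, hp⟩ | ⟨b, s, hb⟩
    · left
      refine ⟨0, ⟨p, by rw [mem_preimage, ← hp]; exact v.2⟩, ?_⟩
      rw [← hv]
      simp only [G0]
      congr 1
      exact Subtype.ext hp.symm
    · right
      refine mem_iUnion₂.2 ⟨b, ⟨s, hb ▸ v.2⟩, 0,
        ⟨(0, s), by rw [mem_preimage, phi_zero, ← hb]; exact v.2⟩, ?_⟩
      rw [← hv]
      simp only [G1]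
      congr 1
      exact Subtype.ext ((phi_zero b s).trans hb.symm)
  have hlt := lt_of_le_of_lt (Cardinal.mk_le_mk_of_subset hall) (small_union h0
    (lt_of_le_of_lt (le_aleph0_iff_set_countable.2 (countable_TT hS hG0)) h0)
    (small_biUnion h0 hTVs _ (fun b => countable_TT hS (hG1 b))))
  rw [Cardinal.mk_univ] at hlt
  exact lt_irrefl _ hlt

end Pool.Agent.Lib.MP_034e58_gt
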